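import Pool.Agent.R676.NC.Sparse
import Pool.Agent.Results.MP_5d2531_al.BlockTriangular

/-!
Multihomogeneous components and the passage to the free algebra.
-/

set_option autoImplicit false

namespace Pool.Agent.R676.NC

open Matrix Pool.Agent.Results.MP_5d2531_al.BlockTriangular

variable {K : Type*} [Field K] {σ : Type*}

/-- the words occurring in `f` -/
noncomputable def supp (f : FreeAlgebra K σ) : Finset (List σ) :=
  open Classical in
  (FreeAlgebra.equivMonoidAlgebraFreeMonoid f).coeff.support.image FreeMonoid.toList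

lemma mem_supp {f : FreeAlgebra K σ} {l : List σ} : l ∈ supp f ↔ coef f l ≠ 0 := by
  classical
  unfold supp coef
  rw [Finset.mem_image]
  constructor
  · rintro ⟨w, hw, rfl⟩
    exact Finsupp.mem_support_iff.1 hw
  · intro h
    exact ⟨FreeMonoid.ofList l, Finsupp.mem_support_iff.2 h, rfl⟩

lemma lift_eq {A : Type*} [Ring A] [Algebra K A] (X : σ → A) (f : FreeAlgebra K σ) :
    FreeAlgebra.lift K X f = ∑ l ∈ supp f, coef f l • (l.map X).prod := by
  classical
  have h0 : ∀ g : MonoidAlgebra K (FreeMonoid σ),
      FreeAlgebra.lift K X (FreeAlgebra.equivMonoidAlgebraFreeMonoid.symm g) =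
        g.coeff.sum fun w c => c • ((FreeMonoid.toList w).map X).prod := by
    intro g
    induction g using MonoidAlgebra.induction_linear with
    | zero => simp
    | add g h hg hh =>
      rw [map_add, map_add, hg, hh, MonoidAlgebra.coeff_add, Finsupp.sum_add_index']
      · intro w; rw [zero_smul]
      · intro w c d; rw [add_smul]
    | single w c =>
      rw [Pool.Agent.TH82.NC.lift_symm_single, MonoidAlgebra.coeff_single,
        Finsupp.sum_single_index (by rw [zero_smul])]
  have h1 := h0 (FreeAlgebra.equivMonoidAlgebraFreeMonoid f)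
  rw [AlgEquiv.symm_apply_apply] at h1
  rw [h1]
  unfold supp
  rw [Finset.sum_image (fun a _ b _ h => FreeMonoid.toList.injective h)]
  rfl

/-- multihomogeneous components of identities of triangular matrices -/
lemma comp [Infinite K] {n : ℕ} (S : Finset (List σ)) (c : List σ → K)
    (h : ∀ X : σ → Matrix (Fin n) (Fin n) K, (∀ i, Up (X i)) →
      ∑ l ∈ S, c l • (l.map X).prod = 0) (w : List σ) [DecidablePred fun l : List σ => l.Perm w]
    (X : σ → Matrix (Fin n) (Fin n) K) (hX : ∀ i, Up (X i)) :
    ∑ l ∈ S with l.Perm w, c l • (l.map X).prod = 0 := by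
  classical
  ext u v
  set p : MvPolynomial σ K := ∑ l ∈ S,
    MvPolynomial.monomial (Multiset.toFinsupp (l : Multiset σ)) (c l * (l.map X).prod u v) with hp
  have hpr : ∀ (t : σ → K) (l : List σ),
      (l.map fun i => t i • X i).prod = (l.map t).prod • (l.map X).prod := by
    intro t l
    induction l with
    | nil => simp
    | cons a l ih =>
      rw [List.map_cons, List.prod_cons, ih, List.map_cons, List.prod_cons, List.map_cons,
        List.prod_cons, smul_mul_smul_comm]
  have hev : ∀ (t : σ → K) (l : List σ) (d : K),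
      MvPolynomial.eval t (MvPolynomial.monomial (Multiset.toFinsupp (l : Multiset σ)) d) =
        d * (l.map t).prod := by
    intro t l d
    rw [MvPolynomial.eval_monomial]
    congr 1
    rw [Finsupp.prod, Multiset.toFinsupp_support]
    have := Finset.prod_multiset_map_count (l : Multiset σ) t
    rw [Multiset.map_coe, Multiset.prod_coe] at this
    rw [this]
    refine Finset.prod_congr rfl fun i _ => ?_
    rw [Multiset.toFinsupp_apply]
  have hp0 : p = 0 := by
    apply MvPolynomial.funext
    intro t
    have h1 := congrFun (congrFun (h (fun i => t i • X i) (fun i a b hab => by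
      rw [Matrix.smul_apply, hX i a b hab, smul_zero])) u) v
    rw [Matrix.sum_apply] at h1
    rw [hp, map_sum, map_zero]
    rw [← h1.trans (by rfl : (0 : Matrix (Fin n) (Fin n) K) u v = 0)]
    refine Finset.sum_congr rfl fun l _ => ?_
    rw [hev, hpr, Matrix.smul_apply, Matrix.smul_apply, smul_eq_mul, smul_eq_mul]
    ring
  have h2 := congrArg (MvPolynomial.coeff (Multiset.toFinsupp (w : Multiset σ))) hp0
  rw [hp, MvPolynomial.coeff_sum, MvPolynomial.coeff_zero] at h2
  simp only [MvPolynomial.coeff_monomial] at h2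
  rw [← Finset.sum_filter] at h2
  rw [Matrix.sum_apply, Matrix.zero_apply, ← h2]
  refine Finset.sum_congr ?_ fun l _ => by rw [Matrix.smul_apply, smul_eq_mul]
  ext l
  rw [Finset.mem_filter, Finset.mem_filter, and_congr_right_iff]
  intro _
  rw [(Multiset.toFinsupp (α := σ)).injective.eq_iff, Multiset.coe_eq_coe]

/-- `f` is equal to a constant on all upper triangular matrices -/
theorem count_free [Infinite K] {n : ℕ} (f : FreeAlgebra K σ) (d : K)
    (h : ∀ X : σ → Matrix (Fin (n + 1)) (Fin (n + 1)) K, (∀ i, Up (X i)) →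
      FreeAlgebra.lift K X f = algebraMap K _ d) (w : List σ) (hw : w ≠ []) (hc : coef f w ≠ 0) :
    {l : List σ | l.Perm w ∧ coef f l ≠ 0}.Finite ∧
    2 ^ (n + 1) ≤ {l : List σ | l.Perm w ∧ coef f l ≠ 0}.ncard ∧
    n + 1 ≤ {s : ℕ | s < w.length ∧ ∃ l : List σ, l.Perm w ∧ coef f l ≠ 0 ∧
      l.take s = w.take s ∧ l[s]? ≠ w[s]?}.ncard := by
  classical
  set c : List σ → K := fun l => if l = [] then coef f [] - d else coef f l with hcdef
  have h1 : ∀ X : σ → Matrix (Fin (n + 1)) (Fin (n + 1)) K, (∀ i, Up (X i)) →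
      ∑ l ∈ insert [] (supp f), c l • (l.map X).prod = 0 := by
    intro X hX
    have h2 := h X hX
    rw [lift_eq] at h2
    have h3 : ∑ l ∈ insert [] (supp f), coef f l • (l.map X).prod =
        ∑ l ∈ supp f, coef f l • (l.map X).prod := by
      refine (Finset.sum_subset (Finset.subset_insert _ _) fun l _ hl => ?_).symm
      rw [mem_supp, not_not] at hl
      rw [hl, zero_smul]
    rw [← h3] at h2
    have h4 : ∑ l ∈ insert [] (supp f), c l • (l.map X).prod =
        ∑ l ∈ insert [] (supp f), (coef f l • (l.map X).prod -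
          (if l = [] then algebraMap K (Matrix (Fin (n + 1)) (Fin (n + 1)) K) d else 0)) := by
      refine Finset.sum_congr rfl fun l _ => ?_
      rw [hcdef]
      by_cases hl : l = []
      · subst hl
        simp only [if_true, List.map_nil, List.prod_nil]
        rw [sub_smul, Algebra.algebraMap_eq_smul_one]
      · simp only [if_neg hl]
        rw [sub_zero]
    rw [h4, Finset.sum_sub_distrib, h2, Finset.sum_ite_eq' , if_pos (Finset.mem_insert_self _ _),
      sub_self]
  set S := (insert [] (supp f)).filter fun l => l.Perm w with hS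
  have hmem : ∀ l, l ∈ S ↔ l.Perm w ∧ coef f l ≠ 0 := by
    intro l
    rw [hS, Finset.mem_filter, Finset.mem_insert, mem_supp]
    constructor
    · rintro ⟨h2 | h2, h3⟩
      · subst h2
        exact absurd (List.nil_perm.1 h3) hw
      · exact ⟨h3, h2⟩
    · rintro ⟨h2, h3⟩
      exact ⟨Or.inr h3, h2⟩
  have hnil : ∀ l ∈ S, l ≠ [] := by
    intro l hl h2
    subst h2
    exact hw (List.nil_perm.1 ((hmem _).1 hl).1)
  have h5 := count n S c ⟨w, (hmem w).2 ⟨List.Perm.refl _, hc⟩⟩ (fun l hl => by
      rw [hcdef]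
      simp only [if_neg (hnil l hl)]
      exact ((hmem l).1 hl).2)
    (fun l hl l' hl' => ((hmem l).1 hl).1.trans ((hmem l').1 hl').1.symm)
    (fun X hX => comp _ c h1 w X hX)
  have h6 : {l : List σ | l.Perm w ∧ coef f l ≠ 0} = (S : Set (List σ)) := by
    ext l
    rw [Set.mem_setOf_eq, Finset.mem_coe, hmem]
  have h7 : {s : ℕ | s < w.length ∧ ∃ l : List σ, l.Perm w ∧ coef f l ≠ 0 ∧
      l.take s = w.take s ∧ l[s]? ≠ w[s]?} = (br S w : Set ℕ) := by
    ext s
    rw [Set.mem_setOf_eq, Finset.mem_coe, mem_br]
    refine and_congr_right fun _ => exists_congr fun l => ?_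
    rw [hmem, and_assoc]
  rw [h6, h7, Set.ncard_coe_finset, Set.ncard_coe_finset]
  exact ⟨S.finite_toSet, h5.1, h5.2 w ((hmem w).2 ⟨List.Perm.refl _, hc⟩)⟩

end Pool.Agent.R676.NC
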