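import Mathlib

/-!
Sparse polynomials are not identities of triangular matrices: the combinatorial core.
-/

set_option autoImplicit false

namespace Pool.Agent.R676.NC

open Matrix Polynomial

variable {K : Type*} [Field K] {σ : Type*}

/-- upper triangular -/
def Up {n : ℕ} (M : Matrix (Fin n) (Fin n) K) : Prop := ∀ u v : Fin n, v < u → M u v = 0

/-- the matrix with a first row `(t, η)` and the lower right block `A` -/
def ext1 {n : ℕ} (t : K) (η : Fin n → K) (A : Matrix (Fin n) (Fin n) K) :
    Matrix (Fin (n + 1)) (Fin (n + 1)) K :=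
  Matrix.of (Fin.cons (Fin.cons t η) fun u => Fin.cons 0 (A u))

@[simp] lemma ext1_00 {n : ℕ} (t : K) (η : Fin n → K) (A : Matrix (Fin n) (Fin n) K) :
    ext1 t η A 0 0 = t := rfl
@[simp] lemma ext1_0s {n : ℕ} (t : K) (η : Fin n → K) (A : Matrix (Fin n) (Fin n) K) (j : Fin n) :
    ext1 t η A 0 j.succ = η j := rfl
@[simp] lemma ext1_s0 {n : ℕ} (t : K) (η : Fin n → K) (A : Matrix (Fin n) (Fin n) K) (i : Fin n) :
    ext1 t η A i.succ 0 = 0 := rfl
@[simp] lemma ext1_ss {n : ℕ} (t : K) (η : Fin n → K) (A : Matrix (Fin n) (Fin n) K)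
    (i j : Fin n) : ext1 t η A i.succ j.succ = A i j := rfl

lemma up_ext1 {n : ℕ} (t : K) (η : Fin n → K) {A : Matrix (Fin n) (Fin n) K} (hA : Up A) :
    Up (ext1 t η A) := by
  intro u v huv
  induction u using Fin.cases with
  | zero => exact absurd huv (Fin.not_lt_zero v)
  | succ u =>
    induction v using Fin.cases with
    | zero => rfl
    | succ v => exact hA u v (Fin.succ_lt_succ_iff.1 huv)

variable [DecidableEq σ]

/-- the first row of a word -/
noncomputable def rowp {n : ℕ} (y : σ) (η : Fin n → K) (A : σ → Matrix (Fin n) (Fin n) K) :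
    List σ → Fin n → K[X]
  | [], _ => 0
  | a :: l, j => X * rowp y η A l j +
      (if a = y then C ((η ᵥ* (l.map A).prod) j) else 0)

lemma word_ext {n : ℕ} (t : K) (y : σ) (η : Fin n → K) (A : σ → Matrix (Fin n) (Fin n) K)
    (l : List σ) :
    (l.map fun i => ext1 t (if i = y then η else 0) (A i)).prod =
      ext1 (t ^ l.length) (fun j => (rowp y η A l j).eval t) (l.map A).prod := by
  induction l with
  | nil =>
    ext u v
    induction u using Fin.cases with
    | zero =>
      induction v using Fin.cases with
      | zero => simp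
      | succ v => simp [rowp, (Fin.succ_ne_zero v).symm]
    | succ u =>
      induction v using Fin.cases with
      | zero => simp [Fin.succ_ne_zero]
      | succ v => simp [Matrix.one_apply]
  | cons a l ih =>
    rw [List.map_cons, List.prod_cons, ih]
    ext u v
    rw [Matrix.mul_apply, Fin.sum_univ_succ]
    induction u using Fin.cases with
    | zero =>
      induction v using Fin.cases with
      | zero => simp [pow_succ, mul_comm]
      | succ v =>
        simp only [ext1_00, ext1_0s, ext1_ss, List.length_cons, rowp, eval_add, eval_mul, eval_X]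
        congr 1
        by_cases h : a = y
        · rw [if_pos h, if_pos h, eval_C]
          rfl
        · simp [h]
    | succ u =>
      induction v using Fin.cases with
      | zero => simp
      | succ v => simp [Matrix.mul_apply]

/-- the coefficients of the first row -/
lemma coeff_rowp {n : ℕ} (y : σ) (η : Fin n → K) (A : σ → Matrix (Fin n) (Fin n) K)
    (l : List σ) (j : Fin n) (s : ℕ) :
    (rowp y η A l j).coeff s =
      if l[s]? = some y then (η ᵥ* ((l.drop (s + 1)).map A).prod) j else 0 := by
  induction l generalizing s with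
  | nil => simp [rowp]
  | cons a l ih =>
    cases s with
    | zero =>
      simp only [rowp, coeff_add, coeff_X_mul_zero, zero_add]
      by_cases h : a = y
      · simp [h]
      · simp [h]
    | succ s =>
      simp only [rowp, coeff_add, coeff_X_mul]
      rw [ih s]
      have : (if a = y then C ((η ᵥ* (l.map A).prod) j) else (0 : K[X])).coeff (s + 1) = 0 := by
        split_ifs
        · exact coeff_C_succ
        · simp
      rw [this, add_zero]
      simp

/-- the peeling step -/
lemma peel [Infinite K] {n : ℕ} (S : Finset (List σ)) (c : List σ → K)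
    (h : ∀ X : σ → Matrix (Fin (n + 1)) (Fin (n + 1)) K, (∀ i, Up (X i)) →
      ∑ l ∈ S, c l • (l.map X).prod = 0) (s : ℕ) (y : σ)
    (A : σ → Matrix (Fin n) (Fin n) K) (hA : ∀ i, Up (A i)) :
    ∑ l ∈ S with l[s]? = some y, c l • ((l.drop (s + 1)).map A).prod = 0 := by
  have key : ∀ (η : Fin n → K) (j : Fin n),
      ∑ l ∈ S with l[s]? = some y, c l * (η ᵥ* ((l.drop (s + 1)).map A).prod) j = 0 := by
    intro η j
    have hp : (∑ l ∈ S, C (c l) * rowp y η A l j) = 0 := by
      apply Polynomial.funext
      intro t
      have h1 := congrFun (congrFun (h (fun i => ext1 t (if i = y then η else 0) (A i))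
        (fun i => up_ext1 _ _ (hA i))) 0) j.succ
      rw [eval_finsetSum, eval_zero]
      rw [Matrix.sum_apply] at h1
      rw [← h1.trans (by rfl : (0 : Matrix (Fin (n + 1)) (Fin (n + 1)) K) 0 j.succ = 0)]
      refine Finset.sum_congr rfl fun l _ => ?_
      rw [word_ext, Matrix.smul_apply, ext1_0s, eval_mul, eval_C, smul_eq_mul]
    have h2 := congrArg (fun p : K[X] => p.coeff s) hp
    simp only [finsetSum_coeff, coeff_C_mul, coeff_rowp, coeff_zero, mul_ite, mul_zero] at h2
    rw [Finset.sum_filter]
    exact h2
  ext i j
  have h3 := key (Pi.single i 1) j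
  rw [Matrix.sum_apply, Matrix.zero_apply, ← h3]
  refine Finset.sum_congr rfl fun l _ => ?_
  rw [Matrix.smul_apply, smul_eq_mul, Matrix.single_one_vecMul]
  rfl

/-- the places where a word of `S` leaves the word `w` -/
noncomputable def br (S : Finset (List σ)) (w : List σ) : Finset ℕ :=
  open Classical in
  (Finset.range w.length).filter fun s => ∃ l ∈ S, l.take s = w.take s ∧ l[s]? ≠ w[s]?

lemma mem_br {S : Finset (List σ)} {w : List σ} {s : ℕ} :
    s ∈ br S w ↔ s < w.length ∧ ∃ l ∈ S, l.take s = w.take s ∧ l[s]? ≠ w[s]? := by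
  unfold br
  rw [Finset.mem_filter, Finset.mem_range]

omit [DecidableEq σ] in
lemma split_at {l p : List σ} {s : ℕ} {y : σ} (hp : l.take s = p) (hy : l[s]? = some y) :
    l = p ++ y :: l.drop (s + 1) := by
  obtain ⟨h1, h2⟩ := List.getElem?_eq_some_iff.1 hy
  rw [← hp, ← h2, ← List.drop_eq_getElem_cons h1, List.take_append_drop]

theorem count [Infinite K] (n : ℕ) : ∀ (S : Finset (List σ)) (c : List σ → K), S.Nonempty →
    (∀ l ∈ S, c l ≠ 0) → (∀ l ∈ S, ∀ l' ∈ S, l.Perm l') →
    (∀ X : σ → Matrix (Fin (n + 1)) (Fin (n + 1)) K, (∀ i, Up (X i)) →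
      ∑ l ∈ S, c l • (l.map X).prod = 0) →
    2 ^ (n + 1) ≤ S.card ∧ ∀ w ∈ S, n + 1 ≤ (br S w).card := by
  induction n with
  | zero => ?_
  | succ n ih => ?_
  all_goals
    intro S c hne hc hperm hvan
    -- two different words
    have hsum : ∑ l ∈ S, c l = 0 := by
      have h1 := congrFun (congrFun (hvan (fun _ => 1) (fun _ u v h => by
        rw [Matrix.one_apply_ne h.ne'])) 0) 0
      rw [Matrix.sum_apply] at h1
      simpa using h1
    have htwo : ∃ l ∈ S, ∃ l' ∈ S, l ≠ l' := by
      by_contra hcon
      push Not at hcon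
      obtain ⟨l, hl⟩ := hne
      have h2 : S = {l} := by
        ext l'
        rw [Finset.mem_singleton]
        exact ⟨fun h => hcon _ h _ hl, fun h => h ▸ hl⟩
      rw [h2, Finset.sum_singleton] at hsum
      exact hc l hl hsum
    have hP : ∃ s : ℕ, ∃ l ∈ S, ∃ l' ∈ S, l[s]? ≠ l'[s]? := by
      obtain ⟨l, hl, l', hl', hll⟩ := htwo
      by_contra hcon
      push Not at hcon
      exact hll (List.ext_getElem? fun s => hcon s l hl l' hl')
    classical
    obtain ⟨s, ⟨l1, hl1, l2, hl2, h12⟩, hmin⟩ : ∃ s : ℕ, (∃ l ∈ S, ∃ l' ∈ S, l[s]? ≠ l'[s]?) ∧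
        ∀ t < s, ∀ l ∈ S, ∀ l' ∈ S, l[t]? = l'[t]? := by
      refine ⟨Nat.find hP, Nat.find_spec hP, fun t ht l hl l' hl' => ?_⟩
      by_contra hcon
      exact Nat.find_min hP ht ⟨l, hl, l', hl', hcon⟩
    have htake : ∀ l ∈ S, ∀ l' ∈ S, l.take s = l'.take s := by
      intro l hl l' hl'
      apply List.ext_getElem?
      intro t
      rw [List.getElem?_take, List.getElem?_take]
      split_ifs with ht
      · exact hmin t ht l hl l' hl'
      · rfl
    have hlen : ∀ l ∈ S, s < l.length := by
      intro l hl
      by_contra hcon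
      apply h12
      rw [List.getElem?_eq_none, List.getElem?_eq_none]
      · rw [(hperm _ hl2 _ hl).length_eq]; omega
      · rw [(hperm _ hl1 _ hl).length_eq]; omega
    have hbrs : ∀ w ∈ S, s ∈ br S w := by
      intro w hw
      rw [mem_br]
      refine ⟨hlen w hw, ?_⟩
      by_cases h : l1[s]? = w[s]?
      · exact ⟨l2, hl2, htake _ hl2 _ hw, fun h' => h12 (h.trans h'.symm)⟩
      · exact ⟨l1, hl1, htake _ hl1 _ hw, h⟩
  · refine ⟨?_, fun w hw => ?_⟩
    · obtain ⟨l, hl, l', hl', hll⟩ := htwo
      have : 1 < S.card := Finset.one_lt_card.2 ⟨l, hl, l', hl', hll⟩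
      omega
    · exact Finset.card_pos.2 ⟨s, hbrs w hw⟩
  · -- the words with a given letter at the place `s`
    have hsub : ∀ w ∈ S, ∀ y : σ, w[s]? = some y →
        2 ^ (n + 1) ≤ (S.filter fun l => l[s]? = some y).card ∧
          n + 1 ≤ (br ((S.filter fun l => l[s]? = some y).image (List.drop (s + 1)))
            (w.drop (s + 1))).card := by
      intro w hw y hy
      have hform : ∀ l ∈ S.filter fun l => l[s]? = some y,
          l = w.take s ++ y :: l.drop (s + 1) := by
        intro l hl
        rw [Finset.mem_filter] at hl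
        exact split_at (htake _ hl.1 _ hw) hl.2
      have hinj : Set.InjOn (List.drop (s + 1))
          ((S.filter fun l => l[s]? = some y : Finset (List σ)) : Set (List σ)) := by
        intro l hl l' hl' he
        rw [hform l hl, hform l' hl', he]
      have h3 := ih ((S.filter fun l => l[s]? = some y).image (List.drop (s + 1)))
        (fun v => c (w.take s ++ y :: v)) ?_ ?_ ?_ ?_
      · refine ⟨?_, ?_⟩
        · rw [← Finset.card_image_of_injOn hinj]
          exact h3.1
        · exact h3.2 _ (Finset.mem_image_of_mem _ (Finset.mem_filter.2 ⟨hw, hy⟩))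
      · exact ⟨_, Finset.mem_image_of_mem _ (Finset.mem_filter.2 ⟨hw, hy⟩)⟩
      · intro v hv
        obtain ⟨l, hl, rfl⟩ := Finset.mem_image.1 hv
        rw [← hform l hl]
        exact hc l (Finset.mem_filter.1 hl).1
      · intro v hv v' hv'
        obtain ⟨l, hl, rfl⟩ := Finset.mem_image.1 hv
        obtain ⟨l', hl', rfl⟩ := Finset.mem_image.1 hv'
        have h4 := hperm l (Finset.mem_filter.1 hl).1 l' (Finset.mem_filter.1 hl').1
        rw [hform l hl, hform l' hl', List.perm_append_left_iff] at h4
        exact (List.perm_cons y).1 h4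
      · intro A hA
        rw [Finset.sum_image hinj, ← peel S c hvan s y A hA]
        refine Finset.sum_congr rfl fun l hl => ?_
        rw [← hform l hl]
    refine ⟨?_, fun w hw => ?_⟩
    · obtain ⟨y1, hy1⟩ : ∃ y, l1[s]? = some y := ⟨_, List.getElem?_eq_getElem (hlen l1 hl1)⟩
      obtain ⟨y2, hy2⟩ : ∃ y, l2[s]? = some y := ⟨_, List.getElem?_eq_getElem (hlen l2 hl2)⟩
      have h4 := (hsub l1 hl1 y1 hy1).1
      have h5 := (hsub l2 hl2 y2 hy2).1
      have h6 : Disjoint (S.filter fun l => l[s]? = some y1)
          (S.filter fun l => l[s]? = some y2) := by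
        rw [Finset.disjoint_left]
        intro l h7 h8
        apply h12
        rw [hy1, hy2, ← (Finset.mem_filter.1 h7).2, (Finset.mem_filter.1 h8).2]
      have h7 := Finset.card_le_card (Finset.union_subset
        (Finset.filter_subset (fun l => l[s]? = some y1) S)
        (Finset.filter_subset (fun l => l[s]? = some y2) S))
      rw [Finset.card_union_of_disjoint h6] at h7
      rw [pow_succ]
      omega
    · obtain ⟨y, hy⟩ : ∃ y, w[s]? = some y := ⟨_, List.getElem?_eq_getElem (hlen w hw)⟩
      have h4 := (hsub w hw y hy).2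
      set S' := (S.filter fun l => l[s]? = some y).image (List.drop (s + 1)) with hS'
      have hww := split_at rfl hy
      have hpl : (w.take s).length = s := by
        rw [List.length_take, min_eq_left (hlen w hw).le]
      have h5 : (insert s ((br S' (w.drop (s + 1))).image fun t => t + (s + 1))) ⊆ br S w := by
        intro t ht
        rw [Finset.mem_insert] at ht
        rcases ht with rfl | ht
        · exact hbrs w hw
        · obtain ⟨t, htt, rfl⟩ := Finset.mem_image.1 ht
          rw [mem_br] at htt ⊢
          obtain ⟨h6, v, hv, h7, h8⟩ := htt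
          rw [List.length_drop] at h6
          refine ⟨by omega, ?_⟩
          obtain ⟨l, hl, rfl⟩ := Finset.mem_image.1 hv
          rw [Finset.mem_filter] at hl
          refine ⟨l, hl.1, ?_, ?_⟩
          · have hll := split_at (htake _ hl.1 _ hw) hl.2
            apply List.ext_getElem?
            intro u
            rw [List.getElem?_take, List.getElem?_take]
            split_ifs with hu
            · by_cases h9 : u < s
              · exact hmin u h9 _ hl.1 _ hw
              · by_cases h10 : u = s
                · rw [h10, hl.2, hy]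
                · have h11 := congrArg (fun q : List σ => q[u - (s + 1)]?) h7
                  simp only [List.getElem?_take, List.getElem?_drop] at h11
                  rw [if_pos (by omega), if_pos (by omega),
                    show s + 1 + (u - (s + 1)) = u by omega] at h11
                  exact h11
            · rfl
          · rw [List.getElem?_drop, List.getElem?_drop] at h8
            rw [show t + (s + 1) = s + 1 + t by omega]
            exact h8
      have h6 := Finset.card_le_card h5
      rw [Finset.card_insert_of_notMem, Finset.card_image_of_injective] at h6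
      · omega
      · intro a b hab
        simpa using hab
      · intro h7
        obtain ⟨t, -, ht⟩ := Finset.mem_image.1 h7
        omega

end Pool.Agent.R676.NC
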